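import Mathlib
import Pool.Agent.H478R3.Borsuk.Inter
import Pool.Agent.Q294.SC.Kneser

set_option autoImplicit false

/-!
# A lower bound for the chromatic number of the disjointness graph of the bases of a matroid

Tucker's lemma with the label `r X + r Y + ε (X, Y)`, `ε (X, Y)` the largest excess
`|(X ∪ Y) ∩ G| - 2 r G` of a set `G` spanned by `X ∩ G` and by `Y ∩ G`.
-/

namespace Pool.Agent.Q237.BN

set_option linter.unusedSectionVars false

open Finset Pool.Agent.H478R3.Borsuk Pool.Agent.H277R2.OM Pool.Agent.Q294.SC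

variable {γ : Type} [Fintype γ] [DecidableEq γ]

/-- the closure -/
def cl (r : Finset γ → ℕ) (X : Finset γ) : Finset γ := univ.filter fun e => r (insert e X) = r X

theorem mem_cl {r : Finset γ → ℕ} {X : Finset γ} {e : γ} : e ∈ cl r X ↔ r (insert e X) = r X := by
  simp [cl]

theorem subset_cl (r : Finset γ → ℕ) (X : Finset γ) : X ⊆ cl r X := by
  intro e he
  rw [mem_cl, insert_eq_of_mem he]

theorem cl_eq_of_subset {r : Finset γ → ℕ} (h : IsRF r) {X Y : Finset γ} (hXY : X ⊆ Y)
    (hr : r X = r Y) : cl r X = cl r Y := by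
  ext e
  rw [mem_cl, mem_cl]
  constructor
  · intro he
    have h1 := h.sub Y (insert e X)
    have h2 : Y ∪ insert e X = insert e Y := by
      ext x; simp only [mem_union, mem_insert]
      constructor
      · rintro (h | h | h)
        · exact Or.inr h
        · exact Or.inl h
        · exact Or.inr (hXY h)
      · rintro (h | h)
        · exact Or.inr (Or.inl h)
        · exact Or.inl h
    have h3 : r X ≤ r (Y ∩ insert e X) := h.mono _ _ (by
      intro x hx
      simp [hXY hx, hx])
    have h4 := h.mono Y (insert e Y) (subset_insert _ _)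
    rw [h2] at h1
    omega
  · intro he
    have h1 := h.mono (insert e X) (insert e Y) (insert_subset_insert _ hXY)
    have h2 := h.mono X (insert e X) (subset_insert _ _)
    omega

theorem r_union_of_subset_cl {r : Finset γ → ℕ} (h : IsRF r) {X : Finset γ} (Z : Finset γ)
    (hZ : Z ⊆ cl r X) : r (X ∪ Z) = r X := by
  induction Z using Finset.induction_on with
  | empty => rw [union_empty]
  | insert e Z he ih =>
    have h1 := ih (fun x hx => hZ (mem_insert_of_mem hx))
    have h2 : e ∈ cl r X := hZ (mem_insert_self _ _)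
    rw [cl_eq_of_subset h subset_union_left h1.symm, mem_cl] at h2
    rw [union_insert, h2, h1]

theorem r_union_of_cl_eq {r : Finset γ → ℕ} (h : IsRF r) {X Y : Finset γ}
    (hc : cl r X = cl r Y) : r (X ∪ Y) = r X ∧ r (X ∪ Y) = r Y := by
  refine ⟨r_union_of_subset_cl h Y (hc ▸ subset_cl r Y), ?_⟩
  rw [union_comm]
  exact r_union_of_subset_cl h X (hc ▸ subset_cl r X)

theorem r_le_inter_add {r : Finset γ → ℕ} (h : IsRF r) (X G : Finset γ) :
    r X ≤ r (X ∩ G) + (X \ G).card := by
  have h1 : ∀ Z : Finset γ, r (X ∩ G ∪ Z) ≤ r (X ∩ G) + Z.card := by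
    intro Z
    induction Z using Finset.induction_on with
    | empty => simp
    | insert e Z he ih =>
      rw [union_insert, card_insert_of_notMem he]
      have := h.ins e (X ∩ G ∪ Z)
      omega
  have h2 := h1 (X \ G)
  have h3 : X ∩ G ∪ X \ G = X := by
    ext x; simp only [mem_union, mem_inter, mem_sdiff]; tauto
  rwa [h3] at h2

theorem r_le_card {r : Finset γ → ℕ} (h : IsRF r) (X : Finset γ) : r X ≤ X.card := by
  have h1 := r_le_inter_add h X ∅
  rw [inter_empty, h.empty, sdiff_empty] at h1
  omega

/-- the excess -/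
def eps (r : Finset γ → ℕ) (X Y : Finset γ) : ℕ :=
  (univ.filter fun G => r (X ∩ G) = r G ∧ r (Y ∩ G) = r G).sup
    fun G => ((X ∪ Y) ∩ G).card - 2 * r G

def mu (r : Finset γ → ℕ) (X Y : Finset γ) : ℕ := r X + r Y + eps r X Y

theorem eps_comm (r : Finset γ → ℕ) (X Y : Finset γ) : eps r X Y = eps r Y X := by
  unfold eps
  rw [union_comm]
  congr 1
  ext G
  simp [and_comm]

theorem mu_comm (r : Finset γ → ℕ) (X Y : Finset γ) : mu r X Y = mu r Y X := by
  unfold mu
  rw [eps_comm]
  omega

theorem eps_mono {r : Finset γ → ℕ} (h : IsRF r) {X Y X' Y' : Finset γ} (hX : X ⊆ X')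
    (hY : Y ⊆ Y') : eps r X Y ≤ eps r X' Y' := by
  unfold eps
  rw [Finset.sup_le_iff]
  intro G hG
  simp only [mem_filter, mem_univ, true_and] at hG
  have h1 := h.mono _ _ (inter_subset_inter_right (u := G) hX)
  have h2 := h.mono _ _ (inter_subset_inter_right (u := G) hY)
  have h3 := h.mono (X' ∩ G) G inter_subset_right
  have h4 := h.mono (Y' ∩ G) G inter_subset_right
  have h5 : G ∈ univ.filter fun G => r (X' ∩ G) = r G ∧ r (Y' ∩ G) = r G := by
    simp only [mem_filter, mem_univ, true_and]
    omega
  refine le_trans ?_ (Finset.le_sup (f := fun G => ((X' ∪ Y') ∩ G).card - 2 * r G) h5)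
  have h6 : ((X ∪ Y) ∩ G).card ≤ ((X' ∪ Y') ∩ G).card :=
    card_le_card (inter_subset_inter_right (union_subset_union hX hY))
  show _ ≤ ((X' ∪ Y') ∩ G).card - 2 * r G
  omega

theorem mu_eq_card {r : Finset γ → ℕ} (h : IsRF r) {X Y : Finset γ} (hc : cl r X = cl r Y)
    (hd : Disjoint X Y) : mu r X Y = X.card + Y.card := by
  obtain ⟨h1, h2⟩ := r_union_of_cl_eq h hc
  have hcard : (X ∪ Y).card = X.card + Y.card := card_union_of_disjoint hd
  have hx := r_le_card h X
  have hy := r_le_card h Y
  have hlow : (X ∪ Y).card - 2 * r (X ∪ Y) ≤ eps r X Y := by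
    have h5 : X ∪ Y ∈ univ.filter fun G => r (X ∩ G) = r G ∧ r (Y ∩ G) = r G := by
      simp only [mem_filter, mem_univ, true_and]
      rw [inter_eq_left.2 subset_union_left, inter_eq_left.2 subset_union_right]
      omega
    have h6 := Finset.le_sup (f := fun G => ((X ∪ Y) ∩ G).card - 2 * r G) h5
    simp only [inter_self] at h6
    exact h6
  have hupp : eps r X Y ≤ (X ∪ Y).card - 2 * r (X ∪ Y) := by
    unfold eps
    rw [Finset.sup_le_iff]
    intro G hG
    simp only [mem_filter, mem_univ, true_and] at hG
    have e1 := r_le_inter_add h X G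
    have e2 := r_le_inter_add h Y G
    have e3 : (X ∩ G).card + (X \ G).card = X.card := card_inter_add_card_sdiff X G
    have e4 : (Y ∩ G).card + (Y \ G).card = Y.card := card_inter_add_card_sdiff Y G
    have e5 : ((X ∪ Y) ∩ G).card = (X ∩ G).card + (Y ∩ G).card := by
      rw [union_inter_distrib_right, card_union_of_disjoint]
      exact Finset.disjoint_of_subset_left inter_subset_left
        (Finset.disjoint_of_subset_right inter_subset_left hd)
    show ((X ∪ Y) ∩ G).card - 2 * r G ≤ _
    omega
  unfold mu
  omega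

/-- the largest excess of a nonspanning set -/
def ex (r : Finset γ → ℕ) : ℕ := (univ.filter fun S => r S < r univ).sup fun S => S.card - 2 * r S

theorem mu_le {r : Finset γ → ℕ} (h : IsRF r) {X Y : Finset γ}
    (hb : ¬ (r X = r univ ∧ r Y = r univ)) : mu r X Y ≤ 2 * r univ - 1 + ex r := by
  have hx := h.mono X univ (subset_univ _)
  have hy := h.mono Y univ (subset_univ _)
  have he : eps r X Y ≤ ex r := by
    unfold eps
    rw [Finset.sup_le_iff]
    intro G hG
    simp only [mem_filter, mem_univ, true_and] at hG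
    have h1 := h.mono (X ∩ G) X inter_subset_left
    have h2 := h.mono (Y ∩ G) Y inter_subset_left
    have h5 : G ∈ univ.filter fun S => r S < r univ := by
      simp only [mem_filter, mem_univ, true_and]
      omega
    refine le_trans ?_ (Finset.le_sup (f := fun S => S.card - 2 * r S) h5)
    have h6 : ((X ∪ Y) ∩ G).card ≤ G.card := card_le_card inter_subset_right
    show ((X ∪ Y) ∩ G).card - 2 * r G ≤ G.card - 2 * r G
    omega
  unfold mu
  omega

theorem ex_spec {r : Finset γ → ℕ} (h : IsRF r) (hR : 1 ≤ r univ) :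
    ∃ S, r S < r univ ∧ S.card = ex r + 2 * r S := by
  by_cases h0 : ex r = 0
  · refine ⟨∅, ?_, ?_⟩
    · rw [h.empty]; omega
    · rw [h.empty, h0]; simp
  · have hne : (univ.filter fun S => r S < r univ).Nonempty := by
      refine ⟨∅, ?_⟩
      simp only [mem_filter, mem_univ, true_and, h.empty]
      omega
    obtain ⟨S, hS, h2⟩ := Finset.exists_mem_eq_sup _ hne (fun S => S.card - 2 * r S)
    simp only [mem_filter, mem_univ, true_and] at hS
    refine ⟨S, hS, ?_⟩
    have h3 : ex r = S.card - 2 * r S := h2
    omega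

theorem mu_pos {r : Finset γ → ℕ} (h : IsRF r) {X Y : Finset γ} (hd : Disjoint X Y)
    (hne : 1 ≤ X.card + Y.card) : 1 ≤ mu r X Y := by
  by_cases h0 : r X = 0 ∧ r Y = 0
  · have h1 := cl_eq_of_subset h (empty_subset X) (by rw [h.empty, h0.1])
    have h2 := cl_eq_of_subset h (empty_subset Y) (by rw [h.empty, h0.2])
    rw [mu_eq_card h (h1.symm.trans h2) hd]
    exact hne
  · unfold mu
    omega

section colour

variable {C : ℕ} (V : Finset γ → Prop) [DecidablePred V] (c : Finset γ → Fin C)

/-- `1 +` the largest colour of a vertex inside `P`, `0` if there are none -/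
def mxc (P : Finset γ) : ℕ := (P.powerset.filter V).sup fun A => (c A : ℕ) + 1

theorem mxc_mono {P Q : Finset γ} (h : P ⊆ Q) : mxc V c P ≤ mxc V c Q :=
  Finset.sup_mono (filter_subset_filter _ (powerset_mono.2 h))

theorem mxc_pos {P A : Finset γ} (hA : A ⊆ P) (hV : V A) : 1 ≤ mxc V c P := by
  have : A ∈ P.powerset.filter V := by simp [hA, hV]
  have h2 := Finset.le_sup (f := fun A => (c A : ℕ) + 1) this
  unfold mxc
  omega

theorem mxc_le {P : Finset γ} : mxc V c P ≤ C := by
  unfold mxc
  rw [Finset.sup_le_iff]
  intro A _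
  have := (c A).2
  omega

theorem exists_mxc {P : Finset γ} (h : 1 ≤ mxc V c P) :
    ∃ A ⊆ P, V A ∧ (c A : ℕ) + 1 = mxc V c P := by
  have hne : (P.powerset.filter V).Nonempty := by
    rw [Finset.nonempty_iff_ne_empty]
    intro h0
    unfold mxc at h
    rw [h0] at h
    simp at h
  obtain ⟨A, hA, h2⟩ := Finset.exists_mem_eq_sup _ hne (fun A => (c A : ℕ) + 1)
  simp only [mem_filter, mem_powerset] at hA
  exact ⟨A, hA.1, hA.2, h2.symm⟩

end colour

open Classical in
/-- **Lower bound.** If the disjointness graph of the vertices `V` of a matroid of positive rank,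
where every spanning set contains a vertex, has a proper colouring with `C` colours, then
`|γ| - |S| - 2 (r - r S) + 2 ≤ C` for a nonspanning set `S`. -/
theorem engine {r : Finset γ → ℕ} (h : IsRF r) (hR : 1 ≤ r univ) (V : Finset γ → Prop)
    (hV : ∀ S, r S = r univ → ∃ A ⊆ S, V A) {C : ℕ} (c : Finset γ → Fin C)
    (hc : ∀ A B, V A → V B → Disjoint A B → c A ≠ c B) :
    ∃ S, r S < r univ ∧ Fintype.card γ + 2 * r S + 2 ≤ C + S.card + 2 * r univ := by
  obtain ⟨S, hS, hSc⟩ := ex_spec h hR
  refine ⟨S, hS, ?_⟩
  set n := Fintype.card γ with hn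
  let e : γ ≃ Fin n := Fintype.equivFin γ
  let code : Finset γ ≃ Fin (Fintype.card (Finset γ)) := Fintype.equivFin _
  let P : (Fin n → SignType) → Finset γ := fun X => univ.filter fun a => X (e a) = 1
  let N : (Fin n → SignType) → Finset γ := fun X => univ.filter fun a => X (e a) = -1
  have hPneg : ∀ X, P (-X) = N X := by
    intro X
    ext a
    simp only [P, N, mem_filter, mem_univ, true_and, Pi.neg_apply]
    generalize X (e a) = t
    revert t; decide
  have hNneg : ∀ X, N (-X) = P X := by
    intro X
    ext a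
    simp only [P, N, mem_filter, mem_univ, true_and, Pi.neg_apply]
    generalize X (e a) = t
    revert t; decide
  have hdisj : ∀ X, Disjoint (P X) (N X) := by
    intro X
    rw [Finset.disjoint_left]
    intro a h1 h2
    simp only [P, N, mem_filter, mem_univ, true_and] at h1 h2
    rw [h1] at h2
    exact absurd h2 (by decide)
  have hPm : ∀ X Y, Le X Y → P X ⊆ P Y := by
    intro X Y hXY a ha
    simp only [P, mem_filter, mem_univ, true_and] at ha ⊢
    rw [hXY (e a) (by rw [ha]; decide), ha]
  have hNm : ∀ X Y, Le X Y → N X ⊆ N Y := by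
    intro X Y hXY a ha
    simp only [N, mem_filter, mem_univ, true_and] at ha ⊢
    rw [hXY (e a) (by rw [ha]; decide), ha]
  have hext : ∀ X Y, P X = P Y → N X = N Y → X = Y := by
    intro X Y h1 h2
    funext i
    have h3 : (e.symm i ∈ P X ↔ e.symm i ∈ P Y) := by rw [h1]
    have h4 : (e.symm i ∈ N X ↔ e.symm i ∈ N Y) := by rw [h2]
    simp only [P, N, mem_filter, mem_univ, true_and, Equiv.apply_symm_apply] at h3 h4
    generalize X i = a at *
    generalize Y i = b at *
    revert a b; decide
  have hcard : ∀ X, X ≠ 0 → 1 ≤ (P X).card + (N X).card := by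
    intro X hX
    by_contra hcon
    apply hX
    have h1 : P X = ∅ := card_eq_zero.1 (by omega)
    have h2 : N X = ∅ := card_eq_zero.1 (by omega)
    apply hext
    · rw [h1]; symm; ext a; simp [P]
    · rw [h2]; symm; ext a; simp [N]
  let good : (Fin n → SignType) → Prop := fun X => r (P X) = r univ ∧ r (N X) = r univ
  have hgoodneg : ∀ X, good (-X) ↔ good X := by
    intro X
    simp only [good, hPneg, hNneg]
    exact and_comm
  have hgm : ∀ X Y, Le X Y → good X → good Y := by
    intro X Y hXY hg
    have h1 := h.mono _ _ (hPm X Y hXY)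
    have h2 := h.mono _ _ (hNm X Y hXY)
    have h3 := h.mono _ _ (subset_univ (P Y))
    have h4 := h.mono _ _ (subset_univ (N Y))
    have h5 : r (P X) = r univ ∧ r (N X) = r univ := hg
    show r (P Y) = r univ ∧ r (N Y) = r univ
    omega
  have hm1 : ∀ X, good X → 1 ≤ mxc V c (P X) ∧ 1 ≤ mxc V c (N X) := by
    intro X hg
    obtain ⟨A, hA, hVA⟩ := hV _ hg.1
    obtain ⟨B, hB, hVB⟩ := hV _ hg.2
    exact ⟨mxc_pos V c hA hVA, mxc_pos V c hB hVB⟩
  have hmne : ∀ X Y : Finset γ, Disjoint X Y → 1 ≤ mxc V c X → mxc V c X ≠ mxc V c Y := by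
    intro X Y hXY h1 h2
    obtain ⟨A, hA, hVA, hA2⟩ := exists_mxc V c h1
    rw [h2] at h1 hA2
    obtain ⟨B, hB, hVB, hB2⟩ := exists_mxc V c h1
    refine hc A B hVA hVB (Finset.disjoint_of_subset_left hA
      (Finset.disjoint_of_subset_right hB hXY)) (Fin.ext ?_)
    omega
  set D := 2 * r univ - 1 + ex r with hD
  let idx : (Fin n → SignType) → ℕ := fun X =>
    if good X then D + (max (mxc V c (P X)) (mxc V c (N X)) - 1) else mu r (P X) (N X)
  let s : (Fin n → SignType) → ZMod 2 := fun X =>
    if good X then (if mxc V c (N X) < mxc V c (P X) then 0 else 1)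
    else if cl r (P X) ≠ cl r (N X) then (if code (cl r (P X)) < code (cl r (N X)) then 0 else 1)
    else (if code (P X) < code (N X) then 0 else 1)
  have key := tucker_univ idx s ?_ ?_ ?_ (Icc 1 (D + C - 1)) ?_
  · rw [Nat.card_Icc] at key
    omega
  · intro X _
    simp only [idx, hgoodneg, hPneg, hNneg]
    rw [max_comm, mu_comm]
  · intro X hX
    simp only [s, hgoodneg, hPneg, hNneg]
    by_cases hg : good X
    · rw [if_pos hg, if_pos hg]
      have h1 := hmne _ _ (hdisj X) (hm1 X hg).1
      rcases lt_trichotomy (mxc V c (P X)) (mxc V c (N X)) with h2 | h2 | h2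
      · rw [if_pos h2, if_neg (by omega)]; decide
      · exact absurd h2 h1
      · rw [if_neg (by omega), if_pos h2]; decide
    · rw [if_neg hg, if_neg hg]
      by_cases hcl : cl r (P X) = cl r (N X)
      · have h3 : P X ≠ N X := by
          intro h4
          have h5 := hdisj X
          rw [← h4, disjoint_self_iff_empty] at h5
          have h6 := hcard X hX
          rw [← h4, h5] at h6
          simp at h6
        have h4 : code (P X) ≠ code (N X) := fun h5 => h3 (code.injective h5)
        have q1 : ¬ (cl r (N X) ≠ cl r (P X)) := fun q => q hcl.symm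
        have q2 : ¬ (cl r (P X) ≠ cl r (N X)) := fun q => q hcl
        rw [if_neg q1, if_neg q2]
        rcases lt_trichotomy (code (P X)) (code (N X)) with h2 | h2 | h2
        · rw [if_neg (by exact not_lt.2 h2.le), if_pos h2]; decide
        · exact absurd h2 h4
        · rw [if_pos h2, if_neg (by exact not_lt.2 h2.le)]; decide
      · have h4 : code (cl r (P X)) ≠ code (cl r (N X)) := fun h5 => hcl (code.injective h5)
        rw [if_pos (fun h5 => hcl h5.symm), if_pos hcl]
        rcases lt_trichotomy (code (cl r (P X))) (code (cl r (N X))) with h2 | h2 | h2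
        · rw [if_neg (by exact not_lt.2 h2.le), if_pos h2]; decide
        · exact absurd h2 h4
        · rw [if_pos h2, if_neg (by exact not_lt.2 h2.le)]; decide
  · intro X Y hX hY hXY hidx
    have hP := hPm X Y hXY
    have hN := hNm X Y hXY
    simp only [idx] at hidx
    simp only [s]
    by_cases hgX : good X
    · have hgY := hgm X Y hXY hgX
      rw [if_pos hgX, if_pos hgY] at hidx
      rw [if_pos hgX, if_pos hgY]
      have a1 := mxc_mono V c hP
      have a2 := mxc_mono V c hN
      have a3 := hm1 X hgX
      have a4 := hm1 Y hgY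
      have a5 := hmne _ _ (hdisj X) (hm1 X hgX).1
      have a6 := hmne _ _ (hdisj Y) (hm1 Y hgY).1
      by_cases h7 : mxc V c (N X) < mxc V c (P X)
      · rw [if_pos h7, if_pos (by omega)]
      · rw [if_neg h7, if_neg (by omega)]
    · rw [if_neg hgX] at hidx
      have b1 : mu r (P X) (N X) ≤ D := mu_le h hgX
      by_cases hgY : good Y
      · exfalso
        rw [if_pos hgY] at hidx
        have a4 := hm1 Y hgY
        have a6 := hmne _ _ (hdisj Y) (hm1 Y hgY).1
        omega
      · rw [if_neg hgY] at hidx
        rw [if_neg hgX, if_neg hgY]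
        have c1 := h.mono _ _ hP
        have c2 := h.mono _ _ hN
        have c3 := eps_mono h hP hN
        unfold mu at hidx
        have c4 := cl_eq_of_subset h hP (by omega)
        have c5 := cl_eq_of_subset h hN (by omega)
        by_cases hcl : cl r (P X) = cl r (N X)
        · have hclY : cl r (P Y) = cl r (N Y) := by rw [← c4, ← c5, hcl]
          have d1 := mu_eq_card h hcl (hdisj X)
          have d2 := mu_eq_card h hclY (hdisj Y)
          unfold mu at d1 d2
          have d3 := card_le_card hP
          have d4 := card_le_card hN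
          have d5 := eq_of_subset_of_card_le hP (by omega)
          have d6 := eq_of_subset_of_card_le hN (by omega)
          rw [hext X Y d5 d6]
        · rw [← c4, ← c5, if_pos hcl, if_pos hcl]
  · intro X hX
    simp only [idx, mem_Icc]
    by_cases hg : good X
    · rw [if_pos hg]
      have a3 := hm1 X hg
      have a5 := hmne _ _ (hdisj X) (hm1 X hg).1
      have a6 := mxc_le V c (P := P X)
      have a7 := mxc_le V c (P := N X)
      omega
    · rw [if_neg hg]
      have b1 : mu r (P X) (N X) ≤ D := mu_le h hg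
      have b2 := mu_pos h (hdisj X) (hcard X hX)
      have b3 : 1 ≤ C := by
        obtain ⟨A, -, -⟩ := hV univ rfl
        exact (c A).pos
      omega

end Pool.Agent.Q237.BN
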