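import Mathlib
import Pool.Agent.Q237.BN.Engine

set_option autoImplicit false

/-!
# Pairs of bases of a matroid at maximal distance
-/

namespace Pool.Agent.Q237.BN

set_option linter.unusedSectionVars false

open Finset Pool.Agent.H478R3.Borsuk

variable {γ : Type} [Fintype γ] [DecidableEq γ]

noncomputable def rk (M : Matroid γ) (X : Finset γ) : ℕ := (M.eRk (X : Set γ)).toNat

theorem coe_rk (M : Matroid γ) (X : Finset γ) : ((rk M X : ℕ) : ℕ∞) = M.eRk (X : Set γ) := by
  unfold rk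
  apply ENat.coe_toNat
  have h := M.eRk_le_encard (X : Set γ)
  intro htop
  rw [htop, Set.encard_coe_eq_coe_finsetCard, top_le_iff] at h
  exact absurd h (ENat.coe_ne_top _)

theorem rk_RF (M : Matroid γ) : IsRF (rk M) where
  empty := by
    have h := coe_rk M ∅
    rw [Finset.coe_empty, M.eRk_empty] at h
    exact_mod_cast h
  mono := by
    intro A B hAB
    have h : M.eRk (A : Set γ) ≤ M.eRk (B : Set γ) := M.eRk_mono (by exact_mod_cast hAB)
    rw [← coe_rk, ← coe_rk] at h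
    exact_mod_cast h
  ins := by
    intro e A
    have h := M.eRk_insert_le_add_one e (A : Set γ)
    rw [← Finset.coe_insert, ← coe_rk, ← coe_rk] at h
    exact_mod_cast h
  sub := by
    intro A B
    have h := M.eRk_inter_add_eRk_union_le (A : Set γ) (B : Set γ)
    rw [← Finset.coe_inter, ← Finset.coe_union, ← coe_rk, ← coe_rk, ← coe_rk, ← coe_rk] at h
    have h' : rk M (A ∩ B) + rk M (A ∪ B) ≤ rk M A + rk M B := by exact_mod_cast h
    omega

theorem card_le_rk (M : Matroid γ) (I X : Finset γ) (hI : M.Indep (I : Set γ)) (hIX : I ⊆ X) :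
    I.card ≤ rk M X := by
  have h := hI.encard_le_eRk_of_subset (show (I : Set γ) ⊆ (X : Set γ) by exact_mod_cast hIX)
  rw [← coe_rk, Set.encard_coe_eq_coe_finsetCard] at h
  exact_mod_cast h

theorem exists_indep (M : Matroid γ) (X : Finset γ) :
    ∃ I ⊆ X, M.Indep (I : Set γ) ∧ I.card = rk M X := by
  classical
  obtain ⟨I, hI⟩ := M.exists_isBasis' (X : Set γ)
  have hfin : I.Finite := Set.toFinite I
  refine ⟨hfin.toFinset, ?_, ?_, ?_⟩
  · intro x hx
    rw [Set.Finite.mem_toFinset] at hx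
    exact_mod_cast hI.subset hx
  · rw [Set.Finite.coe_toFinset]
    exact hI.indep
  · have h := hI.eRk_eq_encard
    rw [← coe_rk, hfin.encard_eq_coe_toFinset_card] at h
    exact_mod_cast h.symm

theorem indep_of_rk (M : Matroid γ) (X : Finset γ) (h : rk M X = X.card) :
    M.Indep (X : Set γ) := by
  rw [M.indep_iff_eRk_eq_encard_of_finite X.finite_toSet, ← coe_rk, h,
    Set.encard_coe_eq_coe_finsetCard]

theorem base_card (M : Matroid γ) {B C : Finset γ} (hB : M.IsBase (B : Set γ))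
    (hC : M.IsBase (C : Set γ)) : B.card = C.card := by
  have h := hB.encard_eq_encard_of_isBase hC
  rw [Set.encard_coe_eq_coe_finsetCard, Set.encard_coe_eq_coe_finsetCard] at h
  exact_mod_cast h

open Classical in
/-- the ground set -/
noncomputable def gr (M : Matroid γ) : Finset γ := univ.filter fun x => x ∈ M.E

theorem mem_gr {M : Matroid γ} {x : γ} : x ∈ gr M ↔ x ∈ M.E := by
  classical
  simp [gr]

theorem coe_gr (M : Matroid γ) : ((gr M : Finset γ) : Set γ) = M.E := by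
  ext x
  simp [mem_gr]

theorem sub_gr {M : Matroid γ} {B : Finset γ} (hB : M.IsBase (B : Set γ)) : B ⊆ gr M := by
  intro x hx
  exact mem_gr.2 (hB.subset_ground (by exact_mod_cast hx))

theorem dual_base {M : Matroid γ} {B : Finset γ} (hB : M.IsBase (B : Set γ)) :
    M✶.IsBase ((gr M \ B : Finset γ) : Set γ) := by
  rw [Finset.coe_sdiff, coe_gr]
  exact hB.compl_isBase_dual

theorem exists_finset_base (M : Matroid γ) {B : Set γ} (hB : M.IsBase B) :
    ∃ C : Finset γ, (C : Set γ) = B ∧ M.IsBase (C : Set γ) := by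
  refine ⟨(Set.toFinite B).toFinset, Set.Finite.coe_toFinset _, ?_⟩
  rw [Set.Finite.coe_toFinset]
  exact hB

/-- `A` is a certificate for the maximality of the distance of two bases. -/
def Cert (M : Matroid γ) (A : Finset γ) : Prop :=
  ∃ C₁ C₂ : Finset γ, M.IsBase (C₁ : Set γ) ∧ M.IsBase (C₂ : Set γ) ∧
    rk M A + rk M✶ (univ \ A) ≤ (C₁ \ C₂).card

theorem exists_cert (M : Matroid γ) : ∃ A : Finset γ, Cert M A := by
  classical
  obtain ⟨A, -, hA⟩ := Finset.exists_min_image (Finset.univ : Finset (Finset γ))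
    (fun A => rk M A + rk M✶ (Finset.univ \ A)) ⟨∅, Finset.mem_univ _⟩
  obtain ⟨I, -, hI1, hI2, hIk⟩ := inter _ (Finset.univ : Finset γ) (rk M) (rk M✶) rfl
    (rk_RF M) (rk_RF M✶) (rk M A + rk M✶ (Finset.univ \ A))
    (fun B _ => hA B (Finset.mem_univ _))
  have i1 := indep_of_rk M I hI1
  have i2 := indep_of_rk M✶ I hI2
  obtain ⟨C₁, hC₁, hIC⟩ := i1.exists_isBase_superset
  obtain ⟨D, hD, hID⟩ := i2.exists_isBase_superset
  have hC₂ : M.IsBase (M.E \ D) := by
    have := hD.compl_isBase_dual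
    rwa [Matroid.dual_dual, Matroid.dual_ground] at this
  obtain ⟨C, hC, hCb⟩ := exists_finset_base M hC₁
  obtain ⟨C', hC', hCb'⟩ := exists_finset_base M hC₂
  refine ⟨A, C, C', hCb, hCb', le_trans hIk (card_le_card ?_)⟩
  intro x hx
  rw [mem_sdiff]
  have hx' : x ∈ (I : Set γ) := by exact_mod_cast hx
  constructor
  · have : x ∈ (C : Set γ) := by rw [hC]; exact hIC hx'
    exact_mod_cast this
  · intro h
    have h2 : x ∈ (C' : Set γ) := by exact_mod_cast h
    rw [hC'] at h2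
    exact h2.2 (hID hx')

/-- the rank function of `M | A ⊕ (M / A)✶` -/
noncomputable def rN (M : Matroid γ) (A S : Finset γ) : ℕ := rk M (S ∩ A) + rk M✶ (S \ A)

theorem rN_RF (M : Matroid γ) (A : Finset γ) : IsRF (rN M A) where
  empty := by
    unfold rN
    rw [empty_inter, empty_sdiff, (rk_RF M).empty, (rk_RF M✶).empty]
  mono := by
    intro X Y h
    have h1 := (rk_RF M).mono _ _ (inter_subset_inter_right (u := A) h)
    have h2 := (rk_RF M✶).mono _ _ (sdiff_subset_sdiff h (le_refl A))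
    unfold rN
    omega
  ins := by
    intro e X
    unfold rN
    by_cases he : e ∈ A
    · have h1 : insert e X \ A = X \ A := insert_sdiff_of_mem X he
      have h2 : insert e X ∩ A = insert e (X ∩ A) := insert_inter_of_mem he
      have h3 := (rk_RF M).ins e (X ∩ A)
      rw [h1, h2]
      omega
    · have h1 : insert e X \ A = insert e (X \ A) := insert_sdiff_of_notMem X he
      have h2 : insert e X ∩ A = X ∩ A := insert_inter_of_notMem he
      have h3 := (rk_RF M✶).ins e (X \ A)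
      rw [h1, h2]
      omega
  sub := by
    intro X Y
    unfold rN
    have h1 := (rk_RF M).sub (X ∩ A) (Y ∩ A)
    have h2 := (rk_RF M✶).sub (X \ A) (Y \ A)
    have e1 : (X ∪ Y) ∩ A = X ∩ A ∪ Y ∩ A := union_inter_distrib_right X Y A
    have e2 : (X ∩ Y) ∩ A = X ∩ A ∩ (Y ∩ A) := by
      ext x; simp only [mem_inter]; tauto
    have e3 : (X ∪ Y) \ A = X \ A ∪ Y \ A := union_sdiff_distrib X Y A
    have e4 : (X ∩ Y) \ A = (X \ A) ∩ (Y \ A) := by
      ext x; simp only [mem_inter, mem_sdiff]; tauto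
    rw [e1, e2, e3, e4]
    omega

theorem rN_univ (M : Matroid γ) (A : Finset γ) :
    rN M A univ = rk M A + rk M✶ (univ \ A) := by
  unfold rN
  rw [univ_inter]

/-- the set of `M | A ⊕ (M / A)✶` belonging to `B` -/
noncomputable def T (M : Matroid γ) (A B : Finset γ) : Finset γ := (B ∩ A) ∪ ((gr M \ B) \ A)

theorem T_inter (M : Matroid γ) (A B : Finset γ) : T M A B ∩ A = B ∩ A := by
  unfold T
  ext x; simp only [mem_inter, mem_union, mem_sdiff]; tauto

theorem T_sdiff (M : Matroid γ) (A B : Finset γ) : T M A B \ A = (gr M \ B) \ A := by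
  unfold T
  ext x; simp only [mem_inter, mem_union, mem_sdiff]; tauto

/-- bases `B` with `|B ∩ A| = r A` -/
def Tight (M : Matroid γ) (A B : Finset γ) : Prop := M.IsBase (B : Set γ) ∧ (B ∩ A).card = rk M A

theorem inter_le (M : Matroid γ) (A : Finset γ) {B : Finset γ} (hB : M.IsBase (B : Set γ)) :
    (B ∩ A).card ≤ rk M A :=
  card_le_rk M _ _ (hB.indep.subset (by simp)) inter_subset_right

theorem dual_le (M : Matroid γ) (A : Finset γ) {B : Finset γ} (hB : M.IsBase (B : Set γ)) :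
    ((gr M \ B) \ A).card ≤ rk M✶ (univ \ A) :=
  card_le_rk M✶ _ _ ((dual_base hB).indep.subset (by exact_mod_cast sdiff_subset))
    (fun x hx => by simp only [mem_sdiff, mem_univ, true_and] at hx ⊢; exact hx.2)

/-- every spanning set contains the set of a tight base -/
theorem exists_tight (M : Matroid γ) (A S : Finset γ) (hS : rN M A S = rN M A univ) :
    ∃ B, Tight M A B ∧ T M A B ⊆ S := by
  classical
  rw [rN_univ] at hS
  unfold rN at hS
  have h1 : rk M (S ∩ A) ≤ rk M A := (rk_RF M).mono _ _ inter_subset_right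
  have h2 : rk M✶ (S \ A) ≤ rk M✶ (univ \ A) :=
    (rk_RF M✶).mono _ _ (sdiff_subset_sdiff (subset_univ _) (le_refl A))
  obtain ⟨I, hIS, hI, hIc⟩ := exists_indep M (S ∩ A)
  obtain ⟨J, hJS, hJ, hJc⟩ := exists_indep M✶ (S \ A)
  have hIA : ∀ x ∈ I, x ∈ A := fun x hx => (mem_inter.1 (hIS hx)).2
  have hJA : ∀ x ∈ J, x ∉ A := fun x hx => (mem_sdiff.1 (hJS hx)).2
  have hco : M.Coindep (J : Set γ) := hJ
  have hsp := hco.compl_spanning
  have hIsub : (I : Set γ) ⊆ M.E \ (J : Set γ) := by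
    intro x hx
    refine ⟨hI.subset_ground hx, fun h => ?_⟩
    exact hJA x (by exact_mod_cast h) (hIA x (by exact_mod_cast hx))
  obtain ⟨B', hB', hIB, hBJ⟩ := hI.exists_isBase_subset_spanning hsp hIsub
  obtain ⟨B, rfl, hB⟩ := exists_finset_base M hB'
  have hIB' : I ⊆ B := by exact_mod_cast hIB
  have hle1 := inter_le M A hB
  have hle2 := dual_le M A hB
  have s1 : I ⊆ B ∩ A := fun x hx => mem_inter.2 ⟨hIB' hx, hIA x hx⟩
  have s2 : J ⊆ (gr M \ B) \ A := by
    intro x hx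
    rw [mem_sdiff, mem_sdiff, mem_gr]
    refine ⟨⟨hJ.subset_ground (by exact_mod_cast hx), fun h => ?_⟩, hJA x hx⟩
    exact (hBJ (show x ∈ (B : Set γ) by exact_mod_cast h)).2 (by exact_mod_cast hx)
  have e1 : I = B ∩ A := eq_of_subset_of_card_le s1 (by omega)
  have e2 : J = (gr M \ B) \ A := eq_of_subset_of_card_le s2 (by omega)
  refine ⟨B, ⟨hB, ?_⟩, ?_⟩
  · rw [← e1]; omega
  · unfold T
    rw [← e1, ← e2]
    exact union_subset (hIS.trans inter_subset_left) (hJS.trans sdiff_subset)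

theorem diff_comm (M : Matroid γ) {B C : Finset γ} (hB : M.IsBase (B : Set γ))
    (hC : M.IsBase (C : Set γ)) : (B \ C).card = (C \ B).card := by
  have h1 := base_card M hB hC
  have h2 := card_sdiff_add_card_inter B C
  have h3 := card_sdiff_add_card_inter C B
  rw [inter_comm] at h3
  omega

theorem symm_card (M : Matroid γ) {B C : Finset γ} (hB : M.IsBase (B : Set γ))
    (hC : M.IsBase (C : Set γ)) :
    (symmDiff (B : Set γ) (C : Set γ)).ncard = 2 * (B \ C).card := by
  rw [Set.symmDiff_def, ← Finset.coe_sdiff, ← Finset.coe_sdiff, ← Finset.coe_union,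
    Set.ncard_coe_finset, card_union_of_disjoint, ← diff_comm M hB hC]
  · ring
  · rw [Finset.disjoint_left]
    intro x h1 h2
    simp only [mem_sdiff] at h1 h2
    exact h1.2 h2.1

/-- tight bases with disjoint sets are at maximal distance -/
theorem far_of_disjoint (M : Matroid γ) (A : Finset γ) {B₁ B₂ C₁ C₂ : Finset γ}
    (h1 : Tight M A B₁) (h2 : Tight M A B₂) (hd : Disjoint (T M A B₁) (T M A B₂))
    (hC₁ : M.IsBase (C₁ : Set γ)) (hC₂ : M.IsBase (C₂ : Set γ)) :
    (C₁ \ C₂).card ≤ (B₁ \ B₂).card := by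
  have hno : ∀ x, x ∈ A → x ∈ B₁ → x ∈ B₂ → False := by
    intro x hA hx1 hx2
    exact (Finset.disjoint_left.1 hd) (mem_union_left _ (mem_inter.2 ⟨hx1, hA⟩))
      (mem_union_left _ (mem_inter.2 ⟨hx2, hA⟩))
  have hyes : ∀ x, x ∈ gr M → x ∉ A → x ∉ B₂ → x ∈ B₁ := by
    intro x hE hA hx2
    by_contra hx1
    exact (Finset.disjoint_left.1 hd)
      (mem_union_right _ (mem_sdiff.2 ⟨mem_sdiff.2 ⟨hE, hx1⟩, hA⟩))
      (mem_union_right _ (mem_sdiff.2 ⟨mem_sdiff.2 ⟨hE, hx2⟩, hA⟩))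
  have e1 : (B₁ \ B₂) ∩ A = B₁ ∩ A := by
    ext x
    simp only [mem_inter, mem_sdiff]
    constructor
    · tauto
    · rintro ⟨a, b⟩
      exact ⟨⟨a, fun c => hno x b a c⟩, b⟩
  have e2 : (B₁ \ B₂) \ A = (gr M \ B₂) \ A := by
    ext x
    simp only [mem_sdiff]
    constructor
    · rintro ⟨⟨a, b⟩, c⟩
      exact ⟨⟨sub_gr h1.1 a, b⟩, c⟩
    · rintro ⟨⟨a, b⟩, c⟩
      exact ⟨⟨hyes x a c b, b⟩, c⟩
  have c1 := card_inter_add_card_sdiff (B₁ \ B₂) A
  have c2 := card_inter_add_card_sdiff (C₁ \ C₂) A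
  rw [e1, e2, h1.2] at c1
  have c3 : ((C₁ \ C₂) ∩ A).card ≤ rk M A :=
    (card_le_card (inter_subset_inter_right sdiff_subset)).trans (inter_le M A hC₁)
  have c4 : ((C₁ \ C₂) \ A).card ≤ ((gr M \ C₂) \ A).card :=
    card_le_card (sdiff_subset_sdiff (sdiff_subset_sdiff (sub_gr hC₁) (le_refl _)) (le_refl _))
  -- compare the parts outside `A`
  have hX : ∀ X : Finset γ, X ⊆ gr M → ((gr M \ X) \ A).card + (X \ A).card = (gr M \ A).card := by
    intro X hX
    rw [← card_union_of_disjoint]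
    · congr 1
      ext x
      simp only [mem_union, mem_sdiff]
      constructor
      · rintro (⟨⟨a, b⟩, c⟩ | ⟨a, b⟩)
        · exact ⟨a, c⟩
        · exact ⟨hX a, b⟩
      · rintro ⟨a, b⟩
        by_cases c : x ∈ X
        · exact Or.inr ⟨c, b⟩
        · exact Or.inl ⟨⟨a, c⟩, b⟩
    · rw [Finset.disjoint_left]
      intro x hx hx'
      simp only [mem_sdiff] at hx hx'
      exact hx.1.2 hx'.1
  have c5 := hX B₂ (sub_gr h2.1)
  have c6 := hX C₂ (sub_gr hC₂)
  have c7 := card_inter_add_card_sdiff B₂ A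
  have c8 := card_inter_add_card_sdiff C₂ A
  have c9 := base_card M h2.1 hC₂
  have c10 := inter_le M A hC₂
  have c11 := h2.2
  omega

/-- the structure of the pairs of bases at maximal distance -/
theorem opt (M : Matroid γ) (A : Finset γ) {B₁ B₂ : Finset γ} (h1 : M.IsBase (B₁ : Set γ))
    (h2 : M.IsBase (B₂ : Set γ)) (hk : rk M A + rk M✶ (univ \ A) ≤ (B₁ \ B₂).card) :
    Tight M A B₁ ∧ Tight M A B₂ ∧ Disjoint (T M A B₁) (T M A B₂) ∧
      rN M A (T M A B₁) = rN M A univ ∧ rN M A (T M A B₂) = rN M A univ := by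
  -- the one-sided statement
  have key : ∀ C₁ C₂ : Finset γ, M.IsBase (C₁ : Set γ) → M.IsBase (C₂ : Set γ) →
      rk M A + rk M✶ (univ \ A) ≤ (C₁ \ C₂).card →
      (C₁ ∩ A).card = rk M A ∧ ((gr M \ C₂) \ A).card = rk M✶ (univ \ A) ∧
        (C₁ \ C₂) ∩ A = C₁ ∩ A ∧ (C₁ \ C₂) \ A = (gr M \ C₂) \ A := by
    intro C₁ C₂ h1 h2 hk
    have c1 := card_inter_add_card_sdiff (C₁ \ C₂) A
    have s1 : (C₁ \ C₂) ∩ A ⊆ C₁ ∩ A := inter_subset_inter_right sdiff_subset
    have s2 : (C₁ \ C₂) \ A ⊆ (gr M \ C₂) \ A :=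
      sdiff_subset_sdiff (sdiff_subset_sdiff (sub_gr h1) (le_refl _)) (le_refl _)
    have c2 := card_le_card s1
    have c3 := card_le_card s2
    have c4 := inter_le M A h1
    have c5 := dual_le M A h2
    refine ⟨by omega, by omega, eq_of_subset_of_card_le s1 (by omega),
      eq_of_subset_of_card_le s2 (by omega)⟩
  obtain ⟨a1, a2, a3, a4⟩ := key B₁ B₂ h1 h2 hk
  obtain ⟨b1, b2, b3, b4⟩ := key B₂ B₁ h2 h1 (by rw [diff_comm M h2 h1]; exact hk)
  refine ⟨⟨h1, a1⟩, ⟨h2, b1⟩, ?_, ?_, ?_⟩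
  · rw [Finset.disjoint_left]
    intro x hx hx'
    have hA : x ∈ A ∨ x ∉ A := em _
    rcases hA with hA | hA
    · have g1 : x ∈ T M A B₁ ∩ A := mem_inter.2 ⟨hx, hA⟩
      have g2 : x ∈ T M A B₂ ∩ A := mem_inter.2 ⟨hx', hA⟩
      rw [T_inter, ← a3] at g1
      rw [T_inter] at g2
      simp only [mem_inter, mem_sdiff] at g1 g2
      exact g1.1.2 g2.1
    · have g1 : x ∈ T M A B₁ \ A := mem_sdiff.2 ⟨hx, hA⟩
      have g2 : x ∈ T M A B₂ \ A := mem_sdiff.2 ⟨hx', hA⟩
      rw [T_sdiff] at g1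
      rw [T_sdiff, ← a4] at g2
      simp only [mem_sdiff] at g1 g2
      exact g1.1.2 g2.1.1
  · rw [rN_univ]
    unfold rN
    rw [T_inter, T_sdiff]
    have g1 : (B₁ ∩ A).card ≤ rk M (B₁ ∩ A) :=
      card_le_rk M _ _ (h1.indep.subset (by simp)) (le_refl _)
    have g2 : ((gr M \ B₁) \ A).card ≤ rk M✶ ((gr M \ B₁) \ A) :=
      card_le_rk M✶ _ _ ((dual_base h1).indep.subset (by exact_mod_cast sdiff_subset)) (le_refl _)
    have g3 : rk M (B₁ ∩ A) ≤ rk M A := (rk_RF M).mono _ _ inter_subset_right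
    have g4 : rk M✶ ((gr M \ B₁) \ A) ≤ rk M✶ (univ \ A) :=
      (rk_RF M✶).mono _ _ (sdiff_subset_sdiff (subset_univ _) (le_refl _))
    omega
  · rw [rN_univ]
    unfold rN
    rw [T_inter, T_sdiff]
    have g1 : (B₂ ∩ A).card ≤ rk M (B₂ ∩ A) :=
      card_le_rk M _ _ (h2.indep.subset (by simp)) (le_refl _)
    have g2 : ((gr M \ B₂) \ A).card ≤ rk M✶ ((gr M \ B₂) \ A) :=
      card_le_rk M✶ _ _ ((dual_base h2).indep.subset (by exact_mod_cast sdiff_subset)) (le_refl _)
    have g3 : rk M (B₂ ∩ A) ≤ rk M A := (rk_RF M).mono _ _ inter_subset_right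
    have g4 : rk M✶ ((gr M \ B₂) \ A) ≤ rk M✶ (univ \ A) :=
      (rk_RF M✶).mono _ _ (sdiff_subset_sdiff (subset_univ _) (le_refl _))
    omega

/-- every set misses at least `2 (r - r S)` elements -/
theorem missing {M : Matroid γ} {A : Finset γ} (hA : Cert M A) (S : Finset γ) :
    2 * rN M A univ + S.card ≤ Fintype.card γ + 2 * rN M A S := by
  obtain ⟨C₁, C₂, h1, h2, hk⟩ := hA
  obtain ⟨-, -, hd, r1, r2⟩ := opt M A h1 h2 hk
  have e1 := r_le_inter_add (rN_RF M A) (T M A C₁) S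
  have e2 := r_le_inter_add (rN_RF M A) (T M A C₂) S
  have e3 := (rN_RF M A).mono _ _ (inter_subset_right : T M A C₁ ∩ S ⊆ S)
  have e4 := (rN_RF M A).mono _ _ (inter_subset_right : T M A C₂ ∩ S ⊆ S)
  have e5 : (T M A C₁ \ S).card + (T M A C₂ \ S).card ≤ (univ \ S).card := by
    rw [← card_union_of_disjoint (Finset.disjoint_of_subset_left sdiff_subset
      (Finset.disjoint_of_subset_right sdiff_subset hd))]
    apply card_le_card
    intro x hx
    simp only [mem_union, mem_sdiff, mem_univ, true_and] at hx ⊢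
    tauto
  have e6 : (univ \ S).card = Fintype.card γ - S.card := by
    rw [card_sdiff_of_subset (subset_univ _), card_univ]
  have e7 : S.card ≤ Fintype.card γ := card_le_univ S
  omega

end Pool.Agent.Q237.BN
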