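import Mathlib
import Pool.Agent.Q237.BN.Mat

set_option autoImplicit false

/-!
# The colouring by the first element outside a set
-/

namespace Pool.Agent.Q237.BN

set_option linter.unusedSectionVars false

open Finset Pool.Agent.H478R3.Borsuk

variable {γ : Type} [Fintype γ] [DecidableEq γ]

/-- **Upper bound.** -/
theorem upper {M : Matroid γ} {A : Finset γ} (hA : Cert M A) (S : Finset γ)
    (hS : rN M A S < rN M A univ) (k : ℕ)
    (hk : Fintype.card γ + 2 * rN M A S + 2 ≤ k + S.card + 2 * rN M A univ) :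
    ∃ c : Finset γ → Fin k, ∀ B₁ B₂ : Finset γ, M.IsBase (B₁ : Set γ) → M.IsBase (B₂ : Set γ) →
      c B₁ = c B₂ → ∃ C₁ C₂ : Finset γ, M.IsBase (C₁ : Set γ) ∧ M.IsBase (C₂ : Set γ) ∧
        (B₁ \ B₂).card < (C₁ \ C₂).card := by
  classical
  have hmiss := missing hA S
  have hcS : S.card ≤ Fintype.card γ := card_le_univ S
  have hk2 : 2 ≤ k := by omega
  obtain ⟨C₁, C₂, hC₁, hC₂, hC⟩ := hA
  let R : Finset γ := univ \ S
  have hR : R.card = Fintype.card γ - S.card := by
    show (univ \ S).card = _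
    rw [card_sdiff_of_subset (subset_univ _), card_univ]
  let e : R ≃ Fin R.card := R.equivFin
  let pos : γ → ℕ := fun x => if h : x ∈ R then (e ⟨x, h⟩ : ℕ) else 0
  have hpos : ∀ x ∈ R, ∀ y ∈ R, pos x = pos y → x = y := by
    intro x hx y hy hxy
    simp only [pos, dif_pos hx, dif_pos hy] at hxy
    have := e.injective (Fin.ext hxy)
    exact congrArg Subtype.val this
  have hposlt : ∀ x ∈ R, pos x < R.card := by
    intro x hx
    simp only [pos, dif_pos hx]
    exact (e ⟨x, hx⟩).2
  let L : Finset γ → Finset ℕ := fun B => insert (k - 1) ((T M A B \ S).image pos)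
  have hL : ∀ B, (L B).Nonempty := fun B => ⟨k - 1, mem_insert_self _ _⟩
  have hlt : ∀ B, (L B).min' (hL B) < k := by
    intro B
    have := Finset.min'_le (L B) (k - 1) (mem_insert_self _ _)
    omega
  refine ⟨fun B => ⟨(L B).min' (hL B), hlt B⟩, ?_⟩
  intro B₁ B₂ h1 h2 hc
  refine ⟨C₁, C₂, hC₁, hC₂, ?_⟩
  by_contra hcon
  obtain ⟨t1, t2, hd, r1, r2⟩ := opt M A h1 h2 (by omega)
  have hc' : (L B₁).min' (hL B₁) = (L B₂).min' (hL B₂) := congrArg Fin.val hc
  by_cases hlast : (L B₁).min' (hL B₁) < k - 1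
  · have m1 := Finset.min'_mem (L B₁) (hL B₁)
    have m2 := Finset.min'_mem (L B₂) (hL B₂)
    rcases mem_insert.1 m1 with h | h
    · omega
    · rcases mem_insert.1 m2 with h' | h'
      · omega
      · obtain ⟨x, hx, hx2⟩ := mem_image.1 h
        obtain ⟨y, hy, hy2⟩ := mem_image.1 h'
        have hxR : x ∈ R := mem_sdiff.2 ⟨mem_univ _, (mem_sdiff.1 hx).2⟩
        have hyR : y ∈ R := mem_sdiff.2 ⟨mem_univ _, (mem_sdiff.1 hy).2⟩
        have hxy := hpos x hxR y hyR (by rw [hx2, hy2, hc'])
        subst hxy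
        exact (Finset.disjoint_left.1 hd) (mem_sdiff.1 hx).1 (mem_sdiff.1 hy).1
  · have hge : ∀ B, ¬ (L B).min' (hL B) < k - 1 → ∀ x ∈ T M A B \ S, k - 1 ≤ pos x := by
      intro B hB x hx
      have := Finset.min'_le (L B) (pos x) (mem_insert_of_mem (mem_image_of_mem _ hx))
      omega
    have g1 := hge B₁ hlast
    have g2 := hge B₂ (by rw [← hc']; exact hlast)
    have q1 := r_le_inter_add (rN_RF M A) (T M A B₁) S
    have q2 := r_le_inter_add (rN_RF M A) (T M A B₂) S
    have q3 := (rN_RF M A).mono _ _ (inter_subset_right : T M A B₁ ∩ S ⊆ S)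
    have q4 := (rN_RF M A).mono _ _ (inter_subset_right : T M A B₂ ∩ S ⊆ S)
    have q5 : (T M A B₁ \ S).card + (T M A B₂ \ S).card ≤ (Ico (k - 1) R.card).card := by
      rw [← card_union_of_disjoint (Finset.disjoint_of_subset_left sdiff_subset
        (Finset.disjoint_of_subset_right sdiff_subset hd))]
      refine card_le_card_of_injOn pos ?_ ?_
      · intro x hx
        have hx' : x ∈ T M A B₁ \ S ∨ x ∈ T M A B₂ \ S := by simpa using hx
        have hxS : x ∉ S := by
          rcases hx' with h | h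
          · exact (mem_sdiff.1 h).2
          · exact (mem_sdiff.1 h).2
        have hxR : x ∈ R := mem_sdiff.2 ⟨mem_univ _, hxS⟩
        rw [Finset.mem_coe, mem_Ico]
        refine ⟨?_, hposlt x hxR⟩
        rcases hx' with h | h
        · exact g1 x h
        · exact g2 x h
      · intro x hx y hy hxy
        have hR' : ∀ z, z ∈ ((T M A B₁ \ S ∪ T M A B₂ \ S : Finset γ) : Set γ) → z ∈ R := by
          intro z hz
          have hz' : z ∈ T M A B₁ \ S ∨ z ∈ T M A B₂ \ S := by simpa using hz
          refine mem_sdiff.2 ⟨mem_univ _, ?_⟩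
          rcases hz' with h | h
          · exact (mem_sdiff.1 h).2
          · exact (mem_sdiff.1 h).2
        exact hpos x (hR' x hx) y (hR' y hy) hxy
    rw [Nat.card_Ico] at q5
    omega

end Pool.Agent.Q237.BN
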